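import Mathlib
import Pool.Agent.H41.CL.Defs

set_option autoImplicit false

/-! # EXP: expansion of random configurations (part of MP_76d27f_co, see `Pool.Agent.H41.CL`) -/

namespace Pool.Agent.H870.CL

open Finset Pool.Agent.H41.CL

/-- the pairs with exactly one position in `A` -/
def spl {k : ℕ} (A : Finset (Q k)) : Finset (Fin (3 * k)) :=
  univ.filter fun j => ¬ ((j, false) ∈ A ↔ (j, true) ∈ A)

/-- the pairs with both positions in `A` -/
def ful {k : ℕ} (A : Finset (Q k)) : Finset (Fin (3 * k)) :=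
  univ.filter fun j => (j, false) ∈ A ∧ (j, true) ∈ A

theorem card_eq {k : ℕ} (A : Finset (Q k)) : A.card = 2 * (ful A).card + (spl A).card := by
  classical
  have h1 : A.card = ∑ q : Q k, if q ∈ A then 1 else 0 := by
    rw [Finset.sum_boole]
    simp
  rw [h1, Fintype.sum_prod_type]
  have h2 : (ful A).card = ∑ j : Fin (3 * k), if ((j, false) ∈ A ∧ (j, true) ∈ A) then 1 else 0 := by
    rw [ful, Finset.card_filter]
  have h3 : (spl A).card =
      ∑ j : Fin (3 * k), if ¬ ((j, false) ∈ A ↔ (j, true) ∈ A) then 1 else 0 := by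
    rw [spl, Finset.card_filter]
  rw [h2, h3, mul_sum, ← sum_add_distrib]
  refine sum_congr rfl fun j _ => ?_
  rw [Fintype.sum_bool]
  by_cases ha : (j, false) ∈ A <;> by_cases hb : (j, true) ∈ A <;> simp [ha, hb]

theorem card_fam {k : ℕ} (i y : ℕ) :
    (univ.filter fun A : Finset (Q k) => A.card = 2 * y + i ∧ (spl A).card = i).card ≤
      (3 * k).choose i * 2 ^ i * (3 * k).choose y := by
  classical
  let T : Finset (Σ _ : Finset (Fin (3 * k)), Finset (Fin (3 * k)) × Finset (Fin (3 * k))) :=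
    (powersetCard i univ).sigma fun I => I.powerset ×ˢ powersetCard y univ
  have hT : T.card = (3 * k).choose i * 2 ^ i * (3 * k).choose y := by
    rw [card_sigma, sum_congr rfl (g := fun _ => 2 ^ i * (3 * k).choose y)]
    · simp [mul_assoc]
    · intro I hI
      rw [mem_powersetCard] at hI
      simp [hI.2]
  rw [← hT]
  refine card_le_card_of_injOn
    (fun A => ⟨spl A, ((spl A).filter fun j => (j, true) ∈ A, ful A)⟩) ?_ ?_
  · intro A hA
    simp only [coe_filter, mem_univ, true_and, Set.mem_ofPred_eq] at hA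
    have h1 := card_eq A
    simp only [T, mem_coe, mem_sigma, mem_powersetCard, mem_product, mem_powerset]
    refine ⟨⟨subset_univ _, hA.2⟩, filter_subset _ _, subset_univ _, ?_⟩
    omega
  · intro A _ A' _ h
    simp only [Sigma.mk.injEq, heq_eq_eq, Prod.mk.injEq] at h
    obtain ⟨h1, h2, h3⟩ := h
    have k1 : ∀ j, (¬ ((j, false) ∈ A ↔ (j, true) ∈ A)) ↔ (¬ ((j, false) ∈ A' ↔ (j, true) ∈ A')) := by
      intro j
      have := Finset.ext_iff.1 h1 j
      simpa [spl] using this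
    have k2 : ∀ j, ((¬ ((j, false) ∈ A ↔ (j, true) ∈ A)) ∧ (j, true) ∈ A) ↔
        ((¬ ((j, false) ∈ A' ↔ (j, true) ∈ A')) ∧ (j, true) ∈ A') := by
      intro j
      have := Finset.ext_iff.1 h2 j
      simpa [spl] using this
    have k3 : ∀ j, ((j, false) ∈ A ∧ (j, true) ∈ A) ↔ ((j, false) ∈ A' ∧ (j, true) ∈ A') := by
      intro j
      have := Finset.ext_iff.1 h3 j
      simpa [ful] using this
    have key : ∀ j, ((j, false) ∈ A ↔ (j, false) ∈ A') ∧ ((j, true) ∈ A ↔ (j, true) ∈ A') := by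
      intro j
      have a1 := k1 j
      have a2 := k2 j
      have a3 := k3 j
      by_cases b1 : (j, false) ∈ A <;> by_cases b2 : (j, true) ∈ A <;>
        by_cases b3 : (j, false) ∈ A' <;> by_cases b4 : (j, true) ∈ A' <;>
        simp only [b1, b2, b3, b4, iff_self, not_true_eq_false, not_false_eq_true, and_true,
          iff_true, iff_false, and_false, and_self] at a1 a2 a3 ⊢
    ext ⟨j, b⟩
    cases b
    · exact (key j).1
    · exact (key j).2

/-- a lower bound for the binomial coefficients -/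
theorem two_pow_le_choose {k z w : ℕ} (h1 : w ≤ z) (h2 : w + z ≤ k) : 2 ^ w ≤ k.choose z := by
  have h3 : 2 ^ w ≤ (2 * w).choose w := by
    have h := Nat.four_pow_le_two_mul_self_mul_centralBinom
    clear h
    induction w with
    | zero => simp
    | succ w ih =>
      have ih := ih (by omega) (by omega)
      have h4 : (w + 1) * (w + 1).centralBinom = 2 * (2 * w + 1) * w.centralBinom :=
        Nat.succ_mul_centralBinom_succ w
      rw [Nat.centralBinom_eq_two_mul_choose, Nat.centralBinom_eq_two_mul_choose] at h4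
      have h5 : (w + 1) * (2 ^ (w + 1)) ≤ (w + 1) * (2 * (w + 1)).choose (w + 1) := by
        rw [h4, pow_succ]
        nlinarith
      exact Nat.le_of_mul_le_mul_left h5 (by omega)
  calc 2 ^ w ≤ (2 * w).choose w := h3
    _ ≤ (z + w).choose w := Nat.choose_le_choose w (by omega)
    _ = (z + w).choose z := by
        rw [Nat.choose_symm_of_eq_add]
        omega
    _ ≤ k.choose z := Nat.choose_le_choose z (by omega)

theorem mul_le_choose (a b c d : ℕ) : a.choose c * b.choose d ≤ (a + b).choose (c + d) := by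
  rw [Nat.add_choose_eq]
  exact single_le_sum (f := fun ij : ℕ × ℕ => a.choose ij.1 * b.choose ij.2)
    (fun _ _ => Nat.zero_le _) (mem_antidiagonal.2 rfl : (c, d) ∈ antidiagonal (c + d))

/-- the positions over `X` -/
def pos {k : ℕ} (τ : Q k ≃ P k) (X : Finset (Fin (2 * k))) : Finset (Q k) :=
  (X ×ˢ (univ : Finset (Fin 3))).map τ.symm.toEmbedding

theorem mem_pos {k : ℕ} {τ : Q k ≃ P k} {X : Finset (Fin (2 * k))} {q : Q k} :
    q ∈ pos τ X ↔ (τ q).1 ∈ X := by
  simp only [pos, mem_map, mem_product, mem_univ, and_true, Equiv.coe_toEmbedding]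
  constructor
  · rintro ⟨p, hp, rfl⟩
    rwa [τ.apply_symm_apply]
  · intro h
    exact ⟨τ q, h, τ.symm_apply_apply q⟩

theorem card_pos {k : ℕ} (τ : Q k ≃ P k) (X : Finset (Fin (2 * k))) :
    (pos τ X).card = 3 * X.card := by
  simp [pos, mul_comm]

theorem spl_pos {k : ℕ} (τ : Q k ≃ P k) (X : Finset (Fin (2 * k))) :
    (spl (pos τ X)).card = cutT τ X := by
  simp only [spl, cutT, mem_pos]

theorem count_X (hS : S_SUB) {k : ℕ} (X : Finset (Fin (2 * k))) (i y : ℕ)
    (h : 3 * X.card = 2 * y + i) :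
    {τ : Q k ≃ P k | cutT τ X = i}.ncard * (6 * k).choose (3 * X.card) ≤
      (3 * k).choose i * 2 ^ i * (3 * k).choose y * (6 * k).factorial := by
  classical
  have h1 := hS (Q k) (P k) (6 * k) (3 * X.card) (by simp; ring) (by simp; ring)
    (X ×ˢ (univ : Finset (Fin 3))) (by simp [mul_comm])
    (univ.filter fun A : Finset (Q k) => A.card = 2 * y + i ∧ (spl A).card = i)
    (fun A hA => by
      rw [mem_filter] at hA
      rw [hA.2.1, h])
  have h2 : {τ : Q k ≃ P k | cutT τ X = i} = {τ : Q k ≃ P k |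
      (X ×ˢ (univ : Finset (Fin 3))).map τ.symm.toEmbedding ∈
        univ.filter fun A : Finset (Q k) => A.card = 2 * y + i ∧ (spl A).card = i} := by
    ext τ
    have h3 := card_pos τ X
    have h4 := spl_pos τ X
    rw [pos] at h3 h4
    simp only [Set.mem_ofPred_eq, mem_filter, mem_univ, true_and, h3, h4, h]
  rw [h2, h1]
  exact Nat.mul_le_mul_right _ (card_fam i y)

theorem count_x (hS : S_SUB) {k : ℕ} (x i y : ℕ) (h : 3 * x = 2 * y + i) (hx : x ≤ 2 * k) :
    (∑ X ∈ powersetCard x (univ : Finset (Fin (2 * k))),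
      {τ : Q k ≃ P k | cutT τ X = i}.ncard) * k.choose (2 * x - y) ≤
      (3 * k).choose i * 2 ^ i * (6 * k).factorial := by
  set S := ∑ X ∈ powersetCard x (univ : Finset (Fin (2 * k))),
      {τ : Q k ≃ P k | cutT τ X = i}.ncard with hSdef
  have h1 : S * (6 * k).choose (3 * x) ≤ (2 * k).choose x *
      ((3 * k).choose i * 2 ^ i * (3 * k).choose y * (6 * k).factorial) := by
    rw [hSdef, sum_mul]
    refine (sum_le_card_nsmul _ _
      ((3 * k).choose i * 2 ^ i * (3 * k).choose y * (6 * k).factorial) ?_).trans ?_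
    · intro X hX
      rw [mem_powersetCard] at hX
      have := count_X hS X i y (by rw [hX.2]; exact h)
      rwa [hX.2] at this
    · simp
  have h2 : (3 * k).choose y * ((2 * k).choose x * k.choose (2 * x - y)) ≤
      (6 * k).choose (3 * x) := by
    calc (3 * k).choose y * ((2 * k).choose x * k.choose (2 * x - y))
        ≤ (3 * k).choose y * ((3 * k).choose (3 * x - y)) := by
          refine Nat.mul_le_mul_left _ ?_
          have := mul_le_choose (2 * k) k x (2 * x - y)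
          rwa [show 2 * k + k = 3 * k by ring, show x + (2 * x - y) = 3 * x - y by omega] at this
      _ ≤ (6 * k).choose (3 * x) := by
          have := mul_le_choose (3 * k) (3 * k) y (3 * x - y)
          rwa [show 3 * k + 3 * k = 6 * k by ring, show y + (3 * x - y) = 3 * x by omega] at this
  have h3 : 0 < (3 * k).choose y * (2 * k).choose x :=
    Nat.mul_pos (Nat.choose_pos (by omega)) (Nat.choose_pos hx)
  refine le_of_mul_le_mul_left (a := (3 * k).choose y * (2 * k).choose x) ?_ h3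
  calc (3 * k).choose y * (2 * k).choose x * (S * k.choose (2 * x - y))
      = S * ((3 * k).choose y * ((2 * k).choose x * k.choose (2 * x - y))) := by ring
    _ ≤ S * (6 * k).choose (3 * x) := Nat.mul_le_mul_left _ h2
    _ ≤ _ := h1
    _ = (3 * k).choose y * (2 * k).choose x * ((3 * k).choose i * 2 ^ i * (6 * k).factorial) := by
        ring

theorem choose_mul_pow_le (n i : ℕ) :
    (n.choose i : ℝ) * 2 ^ i ≤ (2001 / 2000 : ℝ) ^ n * 4000 ^ i := by
  have h : (n.choose i : ℝ) * (1 / 2000) ^ i ≤ (2001 / 2000) ^ n := by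
    by_cases hi : i ≤ n
    · rw [show (2001 / 2000 : ℝ) = 1 / 2000 + 1 by norm_num, add_pow]
      refine le_trans ?_ (single_le_sum
        (f := fun m => (1 / 2000 : ℝ) ^ m * 1 ^ (n - m) * n.choose m)
        (fun _ _ => by positivity) (mem_range.2 (Nat.lt_succ_of_le hi)))
      simp [mul_comm]
    · rw [Nat.choose_eq_zero_of_lt (not_le.1 hi)]
      simp
      positivity
  calc (n.choose i : ℝ) * 2 ^ i = (n.choose i : ℝ) * (1 / 2000) ^ i * 4000 ^ i := by
        rw [mul_assoc, ← mul_pow]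
        norm_num
    _ ≤ _ := by gcongr

theorem pow4000_le {k i : ℕ} (h : 12000 * i ≤ k) : (4000 : ℝ) ^ i ≤ (1001 / 1000) ^ k := by
  have h1 : (2 : ℝ) ≤ (1001 / 1000) ^ 1000 := by
    have := one_add_mul_le_pow (a := (1 / 1000 : ℝ)) (by norm_num) 1000
    rw [show (1 : ℝ) + 1 / 1000 = 1001 / 1000 by norm_num] at this
    refine le_trans (by norm_num) this
  have h2 : (4000 : ℝ) ≤ (1001 / 1000) ^ 12000 := by
    rw [show 12000 = 1000 * 12 by norm_num, pow_mul]
    refine le_trans (by norm_num : (4000 : ℝ) ≤ 2 ^ 12) ?_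
    exact pow_le_pow_left₀ (by norm_num) h1 12
  calc (4000 : ℝ) ^ i ≤ ((1001 / 1000) ^ 12000) ^ i := pow_le_pow_left₀ (by norm_num) h2 i
    _ = (1001 / 1000) ^ (12000 * i) := by rw [pow_mul]
    _ ≤ _ := pow_le_pow_right₀ (by norm_num) h

theorem half_le {k w : ℕ} (h : k ≤ 140 * (w + 1)) :
    (1 / 2 : ℝ) ^ (w + 1) ≤ (279 / 280) ^ k := by
  have h1 : (1 / 2 : ℝ) ≤ (279 / 280) ^ 140 := by
    have := one_add_mul_le_pow (a := (-(1 / 280) : ℝ)) (by norm_num) 140
    rw [show (1 : ℝ) + -(1 / 280) = 279 / 280 by norm_num] at this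
    refine le_trans (by norm_num) this
  calc (1 / 2 : ℝ) ^ (w + 1) ≤ ((279 / 280) ^ 140) ^ (w + 1) :=
        pow_le_pow_left₀ (by norm_num) h1 _
    _ = (279 / 280) ^ (140 * (w + 1)) := by rw [pow_mul]
    _ ≤ _ := pow_le_pow_of_le_one (by norm_num) (by norm_num) h

/-- the rate -/
noncomputable def rt : ℝ := (2001 / 2000) ^ 3 * (1001 / 1000) * (279 / 280)

theorem rt_pos : 0 < rt := by
  rw [rt]
  positivity

theorem rt_lt : rt < 1 := by
  rw [rt]
  norm_num

theorem bound_xi (hS : S_SUB) {k : ℕ} (x i y : ℕ) (h : 3 * x = 2 * y + i) (hx : x ≤ 2 * k)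
    (h1 : k ≤ 70 * x) (h2 : 12000 * x ≤ 12001 * k) (h3 : 12000 * i ≤ k) :
    ((∑ X ∈ powersetCard x (univ : Finset (Fin (2 * k))),
      {τ : Q k ≃ P k | cutT τ X = i}.ncard : ℕ) : ℝ) ≤ 2 * rt ^ k * (6 * k).factorial := by
  have h4 := count_x hS x i y h hx
  set S := ∑ X ∈ powersetCard x (univ : Finset (Fin (2 * k))),
      {τ : Q k ≃ P k | cutT τ X = i}.ncard with hSdef
  have h5 : 2 ^ (k / 140) ≤ k.choose (2 * x - y) :=
    two_pow_le_choose (by omega) (by omega)
  have h6 : S * 2 ^ (k / 140) ≤ (3 * k).choose i * 2 ^ i * (6 * k).factorial :=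
    (Nat.mul_le_mul_left _ h5).trans h4
  have h7 : (S : ℝ) * 2 ^ (k / 140) ≤ ((3 * k).choose i : ℝ) * 2 ^ i * (6 * k).factorial := by
    exact_mod_cast h6
  have h8 : ((3 * k).choose i : ℝ) * 2 ^ i ≤ (2001 / 2000 : ℝ) ^ (3 * k) * (1001 / 1000) ^ k :=
    (choose_mul_pow_le _ _).trans (mul_le_mul_of_nonneg_left (pow4000_le h3) (by positivity))
  have h9 := half_le (k := k) (w := k / 140) (by omega)
  calc (S : ℝ) = (S : ℝ) * 2 ^ (k / 140) * (2 * (1 / 2) ^ (k / 140 + 1)) := by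
        rw [pow_succ, one_div, inv_pow]
        field_simp
    _ ≤ ((2001 / 2000 : ℝ) ^ (3 * k) * (1001 / 1000) ^ k * (6 * k).factorial) *
          (2 * (279 / 280) ^ k) := by
        refine mul_le_mul (h7.trans (mul_le_mul_of_nonneg_right h8 (by positivity)))
          (mul_le_mul_of_nonneg_left h9 (by norm_num)) (by positivity) (by positivity)
    _ = 2 * rt ^ k * (6 * k).factorial := by
        rw [rt, mul_pow, mul_pow, ← pow_mul]
        ring

theorem union_bound (hS : S_SUB) (k : ℕ) :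
    ({τ : Q k ≃ P k | ∃ X : Finset (Fin (2 * k)), k ≤ 70 * X.card ∧
      (X.card : ℝ) ≤ (1 + 1 / 12000) * k ∧ (cutT τ X : ℝ) ≤ 1 / 12000 * k}.ncard : ℝ) ≤
      ((2 * k + 1) * (k + 1) : ℝ) * (2 * rt ^ k * (6 * k).factorial) := by
  classical
  let I : Finset (ℕ × ℕ) := (range (2 * k + 1) ×ˢ range (k + 1)).filter fun a =>
    k ≤ 70 * a.1 ∧ 12000 * a.1 ≤ 12001 * k ∧ 12000 * a.2 ≤ k ∧ ∃ y, 3 * a.1 = 2 * y + a.2
  let F : ℕ × ℕ → Finset (Q k ≃ P k) := fun a =>
    (powersetCard a.1 (univ : Finset (Fin (2 * k)))).biUnion fun X =>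
      univ.filter fun τ : Q k ≃ P k => cutT τ X = a.2
  have h1 : {τ : Q k ≃ P k | ∃ X : Finset (Fin (2 * k)), k ≤ 70 * X.card ∧
      (X.card : ℝ) ≤ (1 + 1 / 12000) * k ∧ (cutT τ X : ℝ) ≤ 1 / 12000 * k} ⊆
      ((I.biUnion F : Finset (Q k ≃ P k)) : Set (Q k ≃ P k)) := by
    rintro τ ⟨X, hX1, hX2, hX3⟩
    have e1 : 12000 * X.card ≤ 12001 * k := by
      have : (12000 * X.card : ℝ) ≤ 12001 * k := by linarith
      exact_mod_cast this
    have e2 : 12000 * cutT τ X ≤ k := by
      have : (12000 * cutT τ X : ℝ) ≤ k := by linarith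
      exact_mod_cast this
    have e3 := card_eq (pos τ X)
    rw [card_pos, spl_pos] at e3
    have e4 : X.card ≤ 2 * k := by
      have := X.card_le_univ
      simpa using this
    simp only [coe_biUnion, Set.mem_iUnion, mem_coe, exists_prop]
    refine ⟨(X.card, cutT τ X), ?_, ?_⟩
    · simp only [I, mem_filter, mem_product, mem_range]
      exact ⟨⟨by omega, by omega⟩, hX1, e1, e2, _, e3⟩
    · simp only [F, mem_biUnion, mem_powersetCard, mem_filter, mem_univ, true_and]
      exact ⟨X, ⟨subset_univ _, rfl⟩, rfl⟩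
  have h2 : {τ : Q k ≃ P k | ∃ X : Finset (Fin (2 * k)), k ≤ 70 * X.card ∧
      (X.card : ℝ) ≤ (1 + 1 / 12000) * k ∧ (cutT τ X : ℝ) ≤ 1 / 12000 * k}.ncard ≤
      ∑ a ∈ I, (F a).card := by
    refine (Set.ncard_le_ncard h1 (finite_toSet _)).trans ?_
    rw [Set.ncard_coe_finset]
    exact card_biUnion_le
  have h3 : ∀ a ∈ I, ((F a).card : ℝ) ≤ 2 * rt ^ k * (6 * k).factorial := by
    intro a ha
    simp only [I, mem_filter, mem_product, mem_range] at ha
    obtain ⟨⟨a1, a2⟩, a3, a4, a5, y, a6⟩ := ha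
    refine le_trans ?_ (bound_xi hS a.1 a.2 y a6 (by omega) a3 a4 a5)
    have h4 : (F a).card ≤ ∑ X ∈ powersetCard a.1 (univ : Finset (Fin (2 * k))),
        {τ : Q k ≃ P k | cutT τ X = a.2}.ncard := by
      refine card_biUnion_le.trans (sum_le_sum fun X _ => le_of_eq ?_)
      rw [← Set.ncard_coe_finset]
      congr 1
      ext τ
      simp
    exact_mod_cast h4
  have h4 : (I.card : ℝ) ≤ (2 * k + 1) * (k + 1) := by
    have : I.card ≤ (2 * k + 1) * (k + 1) := by
      refine (card_filter_le _ _).trans ?_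
      simp
    exact_mod_cast this
  calc _ ≤ ((∑ a ∈ I, (F a).card : ℕ) : ℝ) := by exact_mod_cast h2
    _ = ∑ a ∈ I, ((F a).card : ℝ) := by push_cast; rfl
    _ ≤ ∑ _a ∈ I, 2 * rt ^ k * (6 * k).factorial := sum_le_sum h3
    _ = (I.card : ℝ) * (2 * rt ^ k * (6 * k).factorial) := by simp
    _ ≤ _ := mul_le_mul_of_nonneg_right h4 (by have := rt_pos; positivity)

theorem exists_k0 {ρ r : ℝ} (h0 : 0 < ρ) (h1 : ρ < r) :
    ∃ k0 : ℕ, ∀ k, k0 ≤ k → ((2 * k + 1) * (k + 1) : ℝ) * (2 * ρ ^ k) ≤ r ^ k := by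
  have hr : 0 < r := h0.trans h1
  have h2 : Filter.Tendsto (fun n : ℕ => (n : ℝ) ^ 2 * (ρ / r) ^ n) Filter.atTop (nhds 0) :=
    tendsto_pow_const_mul_const_pow_of_lt_one 2 (by positivity) ((div_lt_one hr).2 h1)
  have h3 := (h2.eventually (gt_mem_nhds (show (0 : ℝ) < 1 / 12 by norm_num))).and
    (Filter.eventually_ge_atTop 1)
  obtain ⟨k0, hk0⟩ := Filter.eventually_atTop.1 h3
  refine ⟨k0, fun k hk => ?_⟩
  obtain ⟨h4, h5⟩ := hk0 k hk
  have h6 : (1 : ℝ) ≤ k := by exact_mod_cast h5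
  rw [div_pow] at h4
  have h7 : (k : ℝ) ^ 2 * ρ ^ k ≤ 1 / 12 * r ^ k := by
    have h8 : (k : ℝ) ^ 2 * (ρ ^ k / r ^ k) * r ^ k ≤ 1 / 12 * r ^ k :=
      mul_le_mul_of_nonneg_right h4.le (by positivity)
    have h9 : (k : ℝ) ^ 2 * (ρ ^ k / r ^ k) * r ^ k = (k : ℝ) ^ 2 * ρ ^ k := by
      field_simp
    rwa [h9] at h8
  have h8 : ((2 * k + 1) * (k + 1) : ℝ) ≤ 6 * (k : ℝ) ^ 2 := by nlinarith
  calc ((2 * k + 1) * (k + 1) : ℝ) * (2 * ρ ^ k) ≤ (6 * (k : ℝ) ^ 2) * (2 * ρ ^ k) :=
        mul_le_mul_of_nonneg_right h8 (by positivity)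
    _ = 12 * ((k : ℝ) ^ 2 * ρ ^ k) := by ring
    _ ≤ 12 * (1 / 12 * r ^ k) := by gcongr
    _ = r ^ k := by ring

theorem t_EXP (hS : S_SUB) : S_EXP := by
  refine ⟨1 / 12000, by norm_num, by norm_num, (1 + rt) / 2, ?_, ?_, ?_⟩
  · have := rt_pos
    positivity
  · have := rt_lt
    linarith
  · obtain ⟨k0, hk0⟩ := exists_k0 rt_pos (show rt < (1 + rt) / 2 by have := rt_lt; linarith)
    refine ⟨k0, fun k hk => (union_bound hS k).trans ?_⟩
    calc ((2 * k + 1) * (k + 1) : ℝ) * (2 * rt ^ k * (6 * k).factorial)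
        = ((2 * k + 1) * (k + 1) : ℝ) * (2 * rt ^ k) * (6 * k).factorial := by ring
      _ ≤ _ := mul_le_mul_of_nonneg_right (hk0 k hk) (by positivity)

end Pool.Agent.H870.CL
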